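import Pool.Agent.H.MP_140d1b_an.B

set_option autoImplicit false

namespace Pool.Agent.Results.MP_140d1b_an.Small
open Filter Topology Real MeasureTheory Metric Set

/-- the integral mean `M_p(r, h)` -/
noncomputable def M (p r : ℝ) (h : ℂ → ℂ) : ℝ :=
  (∫ t in (0 : ℝ)..2 * π, ‖h (r * Complex.exp (t * Complex.I))‖ ^ p / (2 * π)) ^ (1 / p)

/-- `M_p(r, g') ≤ M_p(r, f')` for all `0 < r < ρ` and all `g = f ∘ φ` subordinate to `f` -/
def Good (p ρ : ℝ) : Prop :=
  ∀ f φ : ℂ → ℂ, DifferentiableOn ℂ f (ball 0 1) → DifferentiableOn ℂ φ (ball 0 1) →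
    MapsTo φ (ball 0 1) (ball 0 1) → φ 0 = 0 →
      ∀ r, 0 < r → r < ρ → M p r (deriv (f ∘ φ)) ≤ M p r (deriv f)

/-- the radius `r_p` -/
noncomputable def rp (p : ℝ) : ℝ := sSup {ρ ∈ Ioc (0 : ℝ) 1 | Good p ρ}

open Pool.Agent.H.MP_f44585_an Pool.Agent.H.MP_0447a2_lc Pool.Agent.H.MP_034cab_an
  Pool.Agent.H.MP_140d1b_an

variable {p q r ρ : ℝ} {φ f : ℂ → ℂ}

lemma M_eq (h : ℂ → ℂ) : M p r h = (∫ t in (0 : ℝ)..1, ‖h (r * ee t)‖ ^ p) ^ (1 / p) := by
  have := intervalIntegral.integral_comp_mul_left (a := 0) (b := 1)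
    (fun t : ℝ => ‖h (r * Complex.exp (t * Complex.I))‖ ^ p) two_pi_pos.ne'
  rw [M, intervalIntegral.integral_div, div_eq_inv_mul]
  simp only [mul_zero, mul_one, smul_eq_mul] at this
  simp only [← this, ee, mul_comm Complex.I]

def K (p r : ℝ) (φ : ℂ → ℂ) : Prop :=
  A p r (fun t => φ (r * ee t)) fun t => ‖deriv φ (r * ee t)‖ ^ p

lemma cc (h : DifferentiableOn ℂ f (ball 0 1)) (r0 : 0 < r) (r1 : r < 1) :
    Continuous fun t => f (r * ee t) := h.continuousOn.comp_continuous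
  (continuous_const.mul ee_cont) fun t => mem_ball_zero_iff.2 ((nr r0.le t).trans_lt r1)

lemma le' (h : Sch φ) (r0 : 0 < r) (r1 : r < 1) (t : ℝ) : ‖φ (r * ee t)‖ ≤ r :=
  (h.le ((nr r0.le t).trans_lt r1)).trans (nr r0.le t).le

lemma ch (h : Sch φ) (hf : DifferentiableOn ℂ f (ball 0 1)) (r0 : 0 < r) (r1 : r < 1) (p0 : 0 < p) :
    M p r (deriv (f ∘ φ)) ≤ M p r (deriv f) ↔ ∫ t in (0 : ℝ)..1, ‖deriv f (φ (r * ee t))‖ ^ p *
      ‖deriv φ (r * ee t)‖ ^ p ≤ ∫ t in (0 : ℝ)..1, ‖deriv f (r * ee t)‖ ^ p := by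
  have n := fun h : ℂ → ℂ => intervalIntegral.integral_nonneg (μ := volume) zero_le_one
    (f := fun t => ‖h (r * ee t)‖ ^ p) fun _ _ => by positivity
  rw [M_eq, M_eq, rpow_le_rpow_iff (n _) (n _) (by positivity)]
  have : ∀ t, deriv (f ∘ φ) (r * ee t) = deriv f (φ (r * ee t)) * deriv φ (r * ee t) := fun t => by
    have b := mem_ball_zero_iff.2 ((nr r0.le t).trans_lt r1)
    exact deriv_comp _ (hf.differentiableAt (isOpen_ball.mem_nhds (h.m b)))
      (h.d.differentiableAt (isOpen_ball.mem_nhds b))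
  simp only [this, norm_mul, mul_rpow (norm_nonneg _) (norm_nonneg _)]

lemma good_iff (p0 : 0 < p) (h1 : ρ ≤ 1) : Good p ρ ↔ ∀ φ, Sch φ → ∀ r, 0 < r → r < ρ → K p r φ := by
  refine ⟨fun H φ h r r0 r1 P => ?_, fun H f φ hf a b c r r0 r1 => ?_⟩
  · have r2 := r1.trans_le h1
    let a : ℕ → ℂ := fun k => Nat.casesOn k 0 fun k => P.coeff k / (k + 1)
    have z : ∀ k ≥ P.natDegree + 2, a k = 0 := fun k hk => by
      obtain ⟨k, rfl⟩ := Nat.exists_eq_add_of_le' (show 1 ≤ k by omega)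
      simp [a, Polynomial.coeff_eq_zero_of_natDegree_lt (show P.natDegree < k by omega)]
    have e : DD a = P.coeff := funext fun k => mul_div_cancel₀ _ (by exact_mod_cast k.succ_ne_zero)
    have d : DifferentiableOn ℂ (PS a) (ball 0 1) := fun x hx =>
      ((Rd.fin z).der (mem_ball_zero_iff.1 hx)).differentiableAt.differentiableWithinAt
    have e' : ∀ x, ‖x‖ < 1 → deriv (PS a) x = P.eval x := fun x hx => by
      rw [((Rd.fin z).der hx).deriv, e, PS_coeff]
    simpa only [e' _ ((le' h r0 r2 _).trans_lt r2), e' _ ((nr r0.le _).trans_lt r2)] using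
      (ch h d r0 r2 p0).1 (H _ φ d h.d h.m h.z r r0 r1)
  have h : Sch φ := ⟨a, b, c⟩
  have r2 := r1.trans_le h1
  exact (ch h hf r0 r2 p0).2 (Pool.Agent.H.MP_140d1b_an.ext p0.le r0.le (cc a r0 r2) (le' h r0 r2)
    ((cc (a.deriv isOpen_ball) r0 r2).norm.rpow_const fun _ => .inr p0.le) (H φ h r r0 r1) r2
    (hf.deriv isOpen_ball))

lemma K.mono (h : Sch φ) (r0 : 0 < r) (r1 : r < 1) (q0 : 0 < q) (hq : q ≤ p) (H : K p r φ) :
    K q r φ := fun P => by
  have p0 := q0.trans_le hq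
  have c1 := cc h.d r0 r1
  have c2 := (cc (h.d.deriv isOpen_ball) r0 r1).norm
  have c3 := (P.continuous.comp c1).norm.rpow_const fun _ => .inr q0.le
  have c4 := c2.rpow_const fun _ => .inr p0.le
  have a := chg p0 q0 r0 c1 (le' h r0 r1) c4 (fun _ => by positivity) H P
  have b := chg two_pos q0 r0 c1 (le' h r0 r1) continuous_const (fun _ => zero_le_one)
    (lit h r0.le r1) P
  have t0 : 0 ≤ q / p := by positivity
  have t1 : 0 ≤ 1 - q / p := sub_nonneg.2 (div_le_one_of_le₀ hq p0.le)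
  have i1 := ((c3.mul c4).intervalIntegrable (μ := volume) 0 1).const_mul (q / p)
  have i2 := ((c3.mul (continuous_const (y := 1))).intervalIntegrable (μ := volume) 0 1).const_mul (1 - q / p)
  refine (intervalIntegral.integral_mono zero_le_one ((c3.mul (c2.rpow_const fun _ =>
    .inr q0.le)).intervalIntegrable _ _) (i1.add i2) fun t => ?_).trans ?_
  · have := geom_mean_le_arith_mean2_weighted t0 t1 (p₁ := ‖deriv φ (r * ee t)‖ ^ p) (by positivity)
      zero_le_one (by ring)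
    rw [one_rpow, mul_one, ← rpow_mul (norm_nonneg _), mul_div_cancel₀ _ p0.ne'] at this
    exact (mul_le_mul_of_nonneg_left this (by positivity)).trans_eq (by simp; ring)
  rw [intervalIntegral.integral_add i1 i2, intervalIntegral.integral_const_mul,
    intervalIntegral.integral_const_mul]
  exact (add_le_add (mul_le_mul_of_nonneg_left a t0) (mul_le_mul_of_nonneg_left b t1)).trans_eq
    (by ring)

lemma test (p0 : 0 < p) (h : Sch φ) (H : ρ ∈ {ρ ∈ Ioc (0 : ℝ) 1 | Good p ρ}) (r0 : 0 < r) (r1 : r < ρ) :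
    ∫ t in (0 : ℝ)..1, ‖deriv φ (r * ee t)‖ ^ p ≤ 1 := by
  simpa using (good_iff p0 H.1.2).1 H.2 φ h r r0 r1 1

lemma half (p0 : 0 < p) (H : ρ ∈ {ρ ∈ Ioc (0 : ℝ) 1 | Good p ρ}) : ρ ≤ 1 / 2 := by
  by_contra! c
  obtain ⟨r, a, b⟩ := exists_between c
  have := test (φ := fun z => z ^ 2) p0 ⟨by fun_prop, fun z hz => by
    simpa using (sq_lt_one_iff₀ (norm_nonneg z)).2 (by simpa using hz), by simp⟩ H (by linarith) b
  simp [ee_norm] at this
  exact this.not_gt (one_lt_rpow (by linarith [le_abs_self r]) p0)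

theorem result : (∀ p, 0 < p → p ≤ 2 → rp p = 1 / 2) ∧ AntitoneOn rp (Ioi 0) ∧
    ∀ ρ > √2 - 1, ∀ᶠ p in atTop, rp p ≤ ρ := by
  have bd : ∀ p, BddAbove {ρ ∈ Ioc (0 : ℝ) 1 | Good p ρ} := fun p => ⟨1, fun _ h => h.1.2⟩
  refine ⟨fun p p0 p2 => IsGreatest.csSup_eq ⟨⟨by norm_num, (good_iff p0 (by norm_num)).2
    fun φ h r r0 r1 => K.mono h r0 (by linarith) p0 p2 (gol h r0.le r1.le)⟩, fun _ => half p0⟩,
    fun q q0 p p0 h => Real.sSup_le (fun ρ H => le_csSup (bd q) ⟨H.1, (good_iff q0 H.1.2).2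
      fun φ s r r0 r1 => K.mono s r0 (r1.trans_le H.1.2) q0 h ((good_iff p0 H.1.2).1 H.2 φ s r r0 r1)⟩)
      (Real.sSup_nonneg fun _ h => h.1.1.le), fun ρ hρ => ?_⟩
  have s1 : 1 < √2 := one_lt_sqrt_two
  have s2 := sq_sqrt (zero_le_two (α := ℝ))
  obtain ⟨r, r0, r1⟩ := exists_between (lt_min hρ (show √2 - 1 < 1 / 2 by nlinarith))
  have r2 := r1.trans_le (min_le_left _ _)
  have r3 := r1.trans_le (min_le_right _ _)
  have r4 : 0 < r := by linarith
  obtain ⟨a, a0, a1⟩ := exists_between ((div_lt_one (by positivity)).2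
    (show 1 - 2 * r < r ^ 2 by nlinarith))
  have a2 : 0 < a := lt_trans (div_pos (by linarith) (by positivity)) a0
  rw [div_lt_iff₀ (by positivity)] at a0
  have n : ∀ z : ℂ, ‖z‖ < 1 → ‖z + a‖ < ‖1 + a * z‖ := fun z hz => by
    have := mul_pos (show 0 < 1 - a ^ 2 by nlinarith) (show 0 < 1 - ‖z‖ ^ 2 by nlinarith [norm_nonneg z])
    refine lt_of_pow_lt_pow_left₀ 2 (norm_nonneg _) ?_
    simp [Complex.sq_norm, Complex.normSq_apply] at this ⊢
    nlinarith
  have n0 : ∀ z : ℂ, ‖z‖ < 1 → 1 + a * z ≠ 0 := fun z hz =>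
    norm_pos_iff.1 ((norm_nonneg _).trans_lt (n z hz))
  have h : Sch fun z => z * (z + a) / (1 + a * z) := ⟨DifferentiableOn.div (by fun_prop) (by fun_prop)
    fun z hz => n0 z (by simpa using hz), fun z hz => by
      have hz : ‖z‖ < 1 := by simpa using hz
      rw [mem_ball_zero_iff, norm_div, norm_mul, div_lt_one (norm_pos_iff.2 (n0 z hz))]
      nlinarith [n z hz, norm_nonneg (z + a)], by simp⟩
  have c := (cc (h.d.deriv isOpen_ball) r4 (by linarith)).norm
  obtain ⟨b, b1, b2⟩ := exists_between (show 1 < ‖deriv (fun z : ℂ => z * (z + a) / (1 + a * z))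
      (r * ee 0)‖ by
    have e := n0 r (by rw [Complex.norm_real, norm_of_nonneg r4.le]; linarith)
    rw [ee_zero, mul_one, (((hasDerivAt_id' (r : ℂ)).fun_mul ((hasDerivAt_id' _).add_const _)).fun_div
      (((hasDerivAt_id' _).const_mul _).const_add _) e).deriv]
    norm_cast
    refine lt_of_lt_of_le ((one_lt_div (by positivity)).2 ?_) (le_abs_self _)
    nlinarith [mul_pos (sub_pos.2 a1) (sub_pos.2 a0)])
  obtain ⟨δ, δ0, hδ⟩ := Metric.eventually_nhds_iff.1 (c.continuousAt.eventually_const_lt b2)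
  have d0 : 0 < min (δ / 2) 1 := by positivity
  filter_upwards [eventually_gt_atTop 0, ((tendsto_rpow_atTop_of_base_gt_one b b1).const_mul_atTop
    d0).eventually_gt_atTop 1] with p p0 hp
  refine Real.sSup_le (fun σ H => ?_) (by linarith)
  by_contra! k
  have cp := c.rpow_const fun _ => .inr p0.le
  refine ((test p0 h H r4 (by linarith)).trans_lt hp).not_ge (le_trans ?_
    (intervalIntegral.integral_mono_interval le_rfl d0.le (min_le_right _ _)
      (.of_forall fun _ => by positivity) (cp.intervalIntegrable _ _)))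
  refine le_of_eq_of_le (by simp) (intervalIntegral.integral_mono_on (f := fun _ => b ^ p) d0.le
    intervalIntegrable_const (cp.intervalIntegrable _ _) fun t ht => rpow_le_rpow (by linarith)
      (hδ ?_).le p0.le)
  rw [Real.dist_0_eq_abs, abs_of_nonneg ht.1]
  linarith [ht.2, min_le_left (δ / 2) 1]

end Pool.Agent.Results.MP_140d1b_an.Small
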